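import Pool.Agent.Lib.MP_9916e0_co.Main

set_option autoImplicit false

namespace Pool.Agent.Results.MP_9916e0_co.LinearDegree

open Pool.Agent.Lib.MP_9916e0_co

/-- The degree threshold `d(n)` of the `(1:1)` Maker-Breaker tree embedding game on the edges of the
complete graph on `n` vertices (Breaker moves first) is of order `n`. -/
theorem result :
    (∀ n : ℕ, 2 ≤ n → IsGreatest {d : ℕ | AllTreesWin n d} (maxDeg n)) ∧
    ∃ c : ℝ, 0 < c ∧ ∃ n₀ : ℕ, ∀ n : ℕ, n₀ ≤ n → c * n ≤ maxDeg n ∧ maxDeg n ≤ n - 2 :=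
  main

end Pool.Agent.Results.MP_9916e0_co.LinearDegree
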